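import Pool.Agent.helper91.SI.Spec5

set_option autoImplicit false

namespace Pool.Agent.helper91.SI

open Pool.Agent.helper20.IG (IsIndepDom IsISet iGraph)

theorem CNN (hIAD : IAD_stmt) (hEXI : EXI_stmt) (hCNB : CNB_stmt) : CNN_stmt := by
  intro V _ _ G h3 h4 h6 hT he
  obtain ⟨e⟩ := he
  obtain ⟨S, hS⟩ := hEXI V G
  have hne : Nonempty V := ⟨e ⟨S, hS⟩⟩
  by_cases hE : ∃ a b, G.Adj a b
  · obtain ⟨a, b, hab⟩ := hE
    have hadj : (iGraph G).Adj (e.symm a) (e.symm b) := e.symm.map_adj_iff.mpr hab
    obtain ⟨s, v, hs, -⟩ := (hIAD V G (e.symm a) (e.symm b)).1 hadj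
    have hc := hCNB V G h3 h4 h6 hT e _ s v hs
    have hpre : G.Preconnected := fun x y => (hc x).symm.trans (hc y)
    exact { preconnected := hpre, nonempty := hne }
  · have hall : ∀ T : {S : Finset V // IsISet G S}, T.1 = Finset.univ := by
      intro T
      apply Finset.eq_univ_iff_forall.mpr
      intro x
      by_contra hx
      obtain ⟨u, -, hu⟩ := T.2.1.2 x hx
      exact hE ⟨u, x, hu⟩
    have hsub : ∀ x y : V, x = y := by
      intro x y
      have h : e.symm x = e.symm y := Subtype.ext ((hall _).trans (hall _).symm)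
      exact e.symm.injective h
    have hpre : G.Preconnected := by
      intro x y
      rw [hsub x y]
    exact { preconnected := hpre, nonempty := hne }

end Pool.Agent.helper91.SI
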